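import Pool.Agent.helper70.LZ.SpecZ
import Pool.Agent.helper33.LE.BDA

set_option autoImplicit false

namespace Pool.Agent.LE

open Pool.Agent.helper58.DC Pool.Agent.DI Pool.Agent.GR Pool.Agent.OB Pool.Agent.DR Pool.Agent.FI Pool.Agent.FI3 Pool.Agent.FI4

theorem BDZ (hLOA : LOA_stmt) (hGM2 : GM2_stmt) (hCNL : CNL_stmt) (hLLN : LLN_stmt)
    (hTPR : Pool.Agent.FI.TPR_stmt) (hZBX : ZBX_stmt) : BDZ_stmt := by
  intro p M hS hp2 c hc G _ _ D x θ χ hR hH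
  obtain ⟨⟨z, hzD, hz⟩, hcard⟩ := hH
  have hp := hS.pr
  have : Fact p.Prime := ⟨hp⟩
  obtain ⟨lo, m, l, hm, hl, hl1, hlX⟩ := BDA_le hLOA hGM2 hCNL hLLN hTPR p M hS hp2 G D x θ χ hR
  obtain ⟨-, hI, -⟩ := hTPR p M hS G
  have h0 : SB M ⊤ θ χ := (hI θ χ).1 hR.ind
  have hBl : Blk M χ (⊤ : Subgroup G) = Bl M ⊤ θ := by
    ext ψ
    constructor
    · rintro ⟨h1, h2⟩
      exact ⟨h1, ((hI ψ χ).1 h2).trans h0.symm⟩
    · rintro ⟨h1, h2⟩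
      exact ⟨h1, (hI ψ χ).2 (h2.trans h0)⟩
  have hpg : IsPGroup p D := hR.dfa.pgrp
  obtain ⟨e, he⟩ := (IsPGroup.iff_orderOf.1 hpg) ⟨z, hzD⟩
  have he' : orderOf z = p ^ e := by
    rw [← he]
    exact (Subgroup.orderOf_mk z hzD).symm
  have hce : c ≤ e := by
    by_contra hlt
    apply hz
    have h1 : p ^ e ∣ p ^ (c - 1) := pow_dvd_pow p (by omega)
    exact orderOf_dvd_iff_pow_eq_one.1 (he' ▸ h1)
  have hmain := hZBX p M hS G D x θ χ lo z hzD e (by omega) he' m hm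
  rw [← hBl] at hmain
  refine ⟨l, hl, hl1, ?_⟩
  have h1 : l * p ^ (2 * c) ≤ p ^ c * p ^ (2 * c) := by
    calc l * p ^ (2 * c) ≤ l * p ^ (2 * e) := Nat.mul_le_mul_left _ (Nat.pow_le_pow_right hp.pos (by omega))
      _ ≤ {ψ : G → ℂ | ψ ∈ Blk M χ (⊤ : Subgroup G) ∧ PR m ψ}.ncard * p ^ (2 * e) := Nat.mul_le_mul_right _ hlX
      _ ≤ p * Nat.card D ^ 2 := hmain
      _ ≤ p ^ (3 * c) := hcard
      _ = p ^ c * p ^ (2 * c) := by rw [← pow_add]; congr 1; ring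
  exact Nat.le_of_mul_le_mul_right h1 (pow_pos hp.pos _)

end Pool.Agent.LE
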