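import Pool.Agent.helper70.LZ.SpecZ

set_option autoImplicit false

namespace Pool.Agent.LE

open Pool.Agent.helper58.DC Pool.Agent.DI Pool.Agent.GR Pool.Agent.OB Pool.Agent.DR Pool.Agent.FI Pool.Agent.FI3 Pool.Agent.FI4

/-- the exponent -/
theorem ZGA_exp (p k i j : ℕ) (hp : p.Prime) (hi : ¬ p ∣ i) (hij : i ≡ j [MOD p]) :
    ∃ s : ℕ, s ≡ 1 [MOD p] ∧ i * s ≡ j [MOD p ^ k] := by
  have hcop : Nat.Coprime i (p ^ (k + 1)) := ((Nat.Prime.coprime_iff_not_dvd hp).2 hi).symm.pow_right _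
  have h1 : 1 < p ^ (k + 1) := Nat.one_lt_pow (Nat.succ_ne_zero k) hp.one_lt
  obtain ⟨a, ha⟩ := Nat.exists_mul_mod_eq_one_of_coprime hcop h1
  have ha' : i * a ≡ 1 [MOD p ^ (k + 1)] := by
    unfold Nat.ModEq
    rw [ha.2, Nat.mod_eq_of_lt h1]
  have hmain : i * (a * j) ≡ j [MOD p ^ (k + 1)] := by
    have := ha'.mul_right j
    rwa [one_mul, mul_assoc] at this
  refine ⟨a * j, ?_, hmain.of_dvd (pow_dvd_pow p (Nat.le_succ k))⟩
  have h2 : i * (a * j) ≡ i * 1 [MOD p] := by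
    rw [mul_one]
    exact (hmain.of_dvd (dvd_pow_self p (Nat.succ_ne_zero k))).trans hij.symm
  exact Nat.ModEq.cancel_left_of_coprime ((Nat.Prime.coprime_iff_not_dvd hp).2 hi) h2

theorem ZGA (hGP2 : GP2_stmt) : ZGA_stmt := by
  intro p hp G _ _ m hm ψ hψ z hz η₀ i j hi hij
  obtain ⟨k, hk⟩ := hz
  obtain ⟨s, hs1, hs2⟩ := ZGA_exp p k i j hp hi hij
  have hpow : (z ^ i) ^ s = z ^ j := by
    rw [← pow_mul]
    exact pow_eq_pow_iff_modEq.2 (hs2.of_dvd (orderOf_dvd_of_pow_eq_one hk))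
  unfold az
  congr 1
  refine finsum_mem_congr rfl fun v hv => ?_
  congr 1
  have hc : v * z = z * v := by
    have h : v ∈ Subgroup.centralizer ({z} : Set G) := hv.1.2
    rwa [Subgroup.mem_centralizer_singleton_iff] at h
  have hc' : z ^ i * v = v * z ^ i := ((show Commute v z from hc).pow_right i).eq.symm
  have hPE : PEl p (z ^ i) := ⟨k, by rw [← pow_mul, mul_comm, pow_mul, hk, one_pow]⟩
  have h := hGP2 p hp G m hm ψ hψ (z ^ i) v hc' hPE hv.2 s hs1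
  rw [hpow] at h
  exact h.symm

end Pool.Agent.LE
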